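import Pool.Agent.Y377.IL.Stm

/-!
From fields to rings: the torsor theorem over a differentially simple ring.
-/

set_option autoImplicit false

namespace Pool.Agent.Y574.IL

open Pool.Agent.Y377.IL Pool.Agent.Y377.EL

theorem t_RNG : Pool.Agent.Y377.IL.S_TOR → Pool.Agent.Y377.IL.S_RNG := by
  intro hT K _ _ D hC R hR hS n X Y M hF
  let L : Subalgebra ℂ K := (frac R).toSubalgebra
  have hRL : ∀ {x : K}, x ∈ R → x ∈ L := fun {x} hx => le_frac R hx
  have hL : Stab D L := fun x hx => stab_frac hR hx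
  have hinv : ∀ x ∈ L, x⁻¹ ∈ L := fun x hx => (frac R).inv_mem hx
  have hFL : Fund D L X Y M := ⟨hF.inv, fun i j => hRL (hF.mem i j), hF.eq⟩
  have hD := hT K D hC L hL hinv n X Y M hFL
  have hRm : R ≤ mat R X Y := le_sup_left
  have hLm : L ≤ mat L X Y := le_sup_left
  have hmm : mat R X Y ≤ mat L X Y :=
    sup_le_sup_right (fun x hx => hRL hx) _
  -- denominators
  have hden : mat L X Y ≤ loc R (mat R X Y) hRm := by
    refine sup_le (fun x hx => frac_le_loc hRm hx) (Algebra.adjoin_le ?_)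
    rintro x hx
    apply le_loc hRm
    exact (le_sup_right : Algebra.adjoin ℂ {x | ∃ i j, x = X i j ∨ x = Y i j} ≤ mat R X Y)
      (Algebra.subset_adjoin hx)
  intro I hI hDI ⟨x₀, hx₀, hx₀0⟩
  have hIm : ∀ a ∈ mat R X Y, ∀ y ∈ I, a * y ∈ I := fun a ha y hy =>
    I.smul_mem (⟨a, ha⟩ : mat R X Y) hy
  let J : Submodule (mat L X Y) K :=
    { carrier := {x | ∃ r ∈ R, r ≠ 0 ∧ r * x ∈ I}
      add_mem' := by
        rintro x y ⟨r, hr, hr0, hx⟩ ⟨s, hs, hs0, hy⟩
        refine ⟨r * s, R.mul_mem hr hs, mul_ne_zero hr0 hs0, ?_⟩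
        have e : r * s * (x + y) = s * (r * x) + r * (s * y) := by ring
        rw [e]
        exact I.add_mem (hIm s (hRm hs) _ hx) (hIm r (hRm hr) _ hy)
      zero_mem' := ⟨1, R.one_mem, one_ne_zero, by
        rw [mul_zero]
        exact I.zero_mem⟩
      smul_mem' := by
        rintro c x ⟨r, hr, hr0, hx⟩
        obtain ⟨s, hs, hs0, hc⟩ := hden c.2
        refine ⟨s * r, R.mul_mem hs hr, mul_ne_zero hs0 hr0, ?_⟩
        have e : s * r * ((c : K) * x) = (s * c) * (r * x) := by ring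
        have h1 : s * r * ((c : K) * x) ∈ I := by
          rw [e]
          exact hIm _ hc _ hx
        exact h1 }
  have hJ1 : ∀ x ∈ J, x ∈ mat L X Y := by
    rintro x ⟨r, hr, hr0, hx⟩
    have e : x = r⁻¹ * (r * x) := by rw [inv_mul_cancel_left₀ hr0]
    rw [e]
    exact (mat L X Y).mul_mem (hLm (hinv r (hRL hr))) (hmm (hI _ hx))
  have hJ2 : ∀ x ∈ J, D x ∈ J := by
    rintro x ⟨r, hr, hr0, hx⟩
    refine ⟨r * r, R.mul_mem hr hr, mul_ne_zero hr0 hr0, ?_⟩
    have h1 := hDI _ hx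
    have e : r * r * D x = r * D (r * x) - D r * (r * x) := by
      rw [D.leibniz]
      simp only [smul_eq_mul]
      ring
    rw [e]
    exact I.sub_mem (hIm r (hRm hr) _ h1) (hIm _ (hRm (hR r hr)) _ hx)
  obtain ⟨r, hr, hr0, h1⟩ := hD J hJ1 hJ2 ⟨x₀, ⟨1, R.one_mem, one_ne_zero, by
    rw [one_mul]
    exact hx₀⟩, hx₀0⟩
  rw [mul_one] at h1
  let A : Submodule R K :=
    { carrier := {y | y ∈ R ∧ y ∈ I}
      add_mem' := fun ha hb => ⟨R.add_mem ha.1 hb.1, I.add_mem ha.2 hb.2⟩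
      zero_mem' := ⟨R.zero_mem, I.zero_mem⟩
      smul_mem' := by
        rintro c a ⟨ha, ha'⟩
        exact ⟨R.mul_mem c.2 ha, hIm _ (hRm c.2) _ ha'⟩ }
  exact (hS A (fun y hy => hy.1) (fun y hy => ⟨hR y hy.1, hDI y hy.2⟩)
    ⟨r, ⟨hr, h1⟩, hr0⟩).2

end Pool.Agent.Y574.IL
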